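import Mathlib

/-!
# Repeated angles in six-dimensional space: cubic order for every angle

For a finite set `S` of points of `ℝ ^ k` and an angle `α`, `angleCount S α` is the number of
the ordered triples `(X, Y, Z)` of distinct points of `S` with `∠ X Y Z = α`, and `B k n α` is the
maximum of `angleCount S α` over all sets `S` of `n` points of `ℝ ^ k`.

We prove `2 ⌊n / 3⌋ ^ 3 ≤ B 6 n α ≤ n ^ 3` for all `n` and ALL angles `0 < α < π`. In particular
`B 6 n α` has the order of magnitude `n ^ 3` for every obtuse angle `α`.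

Construction: write `ℝ ^ 6` as the orthogonal sum of three planes. The points `X` lie on a circle
of radius `a` about the origin in the first plane, the points `Z` on a circle of the same radius
about the point `(2, 0)` of the third plane, parallel to the second plane, and the points `Y` lie
in the third plane on the level curve
`y ⬝ (y - (2, 0)) = cos α √((a² + |y|²) (a² + |y - (2, 0)|²))`. If `a` is small this curve meets
every ray from `(1, 0)`, since the quotient of the two sides tends to a number below `cos α` at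
`(1, 0)` and to `1` at infinity.
-/

set_option autoImplicit false

namespace Pool.Agent.Results.MP_6251d3_co.CubicOrder

open Real Filter Asymptotics

/-- The number of ordered triples `(X, Y, Z)` of distinct points of `S` with `∠ X Y Z = α`
(the angle at `Y`). -/
noncomputable def angleCount {k : ℕ} (S : Finset (EuclideanSpace ℝ (Fin k))) (α : ℝ) : ℕ :=
  Set.ncard {t : EuclideanSpace ℝ (Fin k) × EuclideanSpace ℝ (Fin k) × EuclideanSpace ℝ (Fin k) |
    t.1 ∈ S ∧ t.2.1 ∈ S ∧ t.2.2 ∈ S ∧ t.1 ≠ t.2.1 ∧ t.2.1 ≠ t.2.2 ∧ t.1 ≠ t.2.2 ∧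
      EuclideanGeometry.angle t.1 t.2.1 t.2.2 = α}

/-- `B_k(n, α)`: the maximum of `angleCount S α` over the `n`-point sets `S` of `ℝ ^ k`. -/
noncomputable def B (k n : ℕ) (α : ℝ) : ℕ :=
  sSup {c : ℕ | ∃ S : Finset (EuclideanSpace ℝ (Fin k)), S.card = n ∧ angleCount S α = c}

section bounds

variable {k : ℕ}

lemma triples_subset (S : Finset (EuclideanSpace ℝ (Fin k))) (α : ℝ) :
    {t : EuclideanSpace ℝ (Fin k) × EuclideanSpace ℝ (Fin k) × EuclideanSpace ℝ (Fin k) |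
    t.1 ∈ S ∧ t.2.1 ∈ S ∧ t.2.2 ∈ S ∧ t.1 ≠ t.2.1 ∧ t.2.1 ≠ t.2.2 ∧ t.1 ≠ t.2.2 ∧
      EuclideanGeometry.angle t.1 t.2.1 t.2.2 = α} ⊆ ((S ×ˢ (S ×ˢ S) : Finset _) : Set _) := by
  rintro ⟨x, y, z⟩ ⟨h1, h2, h3, -⟩
  simp only [Finset.coe_product, Set.mem_prod, Finset.mem_coe]
  exact ⟨h1, h2, h3⟩

lemma angleCount_le (S : Finset (EuclideanSpace ℝ (Fin k))) (α : ℝ) :
    angleCount S α ≤ S.card ^ 3 := by
  unfold angleCount
  calc _ ≤ ((S ×ˢ (S ×ˢ S) : Finset _) : Set _).ncard :=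
        Set.ncard_le_ncard (triples_subset S α) (Finset.finite_toSet _)
    _ = S.card ^ 3 := by
        rw [Set.ncard_coe_finset, Finset.card_product, Finset.card_product]; ring

lemma bddAbove (n : ℕ) (α : ℝ) :
    BddAbove {c : ℕ | ∃ S : Finset (EuclideanSpace ℝ (Fin k)), S.card = n ∧ angleCount S α = c} := by
  refine ⟨n ^ 3, ?_⟩
  rintro c ⟨S, hS, rfl⟩
  rw [← hS]
  exact angleCount_le S α

lemma B_le (n : ℕ) (α : ℝ) : B k n α ≤ n ^ 3 := by
  unfold B
  rcases Set.eq_empty_or_nonempty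
    {c : ℕ | ∃ S : Finset (EuclideanSpace ℝ (Fin k)), S.card = n ∧ angleCount S α = c} with h | h
  · rw [h]; simp
  · refine csSup_le h ?_
    rintro c ⟨S, hS, rfl⟩
    rw [← hS]
    exact angleCount_le S α

end bounds

/-! ### The construction -/

/-- Points of the first circle. -/
noncomputable def px (a : ℝ) (i : ℕ) : EuclideanSpace ℝ (Fin 6) :=
  !₂[a / (i + 1), √(a ^ 2 - (a / (i + 1)) ^ 2), 0, 0, 0, 0]

/-- Points of the second circle. -/
noncomputable def pz (a : ℝ) (i : ℕ) : EuclideanSpace ℝ (Fin 6) :=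
  !₂[0, 0, a / (i + 1), √(a ^ 2 - (a / (i + 1)) ^ 2), 2, 0]

/-- Points of the third plane. -/
noncomputable def py (r : ℝ) (s : ℕ) : EuclideanSpace ℝ (Fin 6) :=
  !₂[0, 0, 0, 0, 1 + r, r * s]

lemma sq_le (a : ℝ) (i : ℕ) : 0 ≤ a ^ 2 - (a / (i + 1)) ^ 2 := by
  have h1 : (1 : ℝ) ≤ (i : ℝ) + 1 := by
    have : (0 : ℝ) ≤ i := Nat.cast_nonneg i
    linarith
  rw [div_pow, sub_nonneg]
  exact div_le_self (sq_nonneg a) (one_le_pow₀ h1)

lemma sqrt_sq' (a : ℝ) (i : ℕ) :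
    √(a ^ 2 - (a / (i + 1)) ^ 2) ^ 2 = a ^ 2 - (a / (i + 1)) ^ 2 := Real.sq_sqrt (sq_le a i)

lemma norm_x (a r : ℝ) (i s : ℕ) :
    ‖px a i - py r s‖ = √(a ^ 2 + ((1 + r) ^ 2 + (r * s) ^ 2)) := by
  rw [EuclideanSpace.norm_eq]
  congr 1
  simp only [px, py, Fin.sum_univ_six, PiLp.sub_apply, Real.norm_eq_abs, sq_abs]
  simp
  have := sqrt_sq' a i
  rw [this]
  ring

lemma norm_z (a r : ℝ) (i s : ℕ) :
    ‖pz a i - py r s‖ = √(a ^ 2 + ((1 - r) ^ 2 + (r * s) ^ 2)) := by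
  rw [EuclideanSpace.norm_eq]
  congr 1
  simp only [pz, py, Fin.sum_univ_six, PiLp.sub_apply, Real.norm_eq_abs, sq_abs]
  simp
  have := sqrt_sq' a i
  rw [this]
  ring

lemma inner_xz (a r : ℝ) (i j s : ℕ) :
    inner ℝ (px a i - py r s) (pz a j - py r s) = r ^ 2 * (1 + (s : ℝ) ^ 2) - 1 := by
  simp only [px, py, pz, PiLp.inner_apply, Fin.sum_univ_six, PiLp.sub_apply]
  simp
  ring_nf
  simp

/-- The level curve meets every ray. -/
lemma exists_r {c : ℝ} (hc1 : -1 < c) (hc2 : c < 1) :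
    ∃ a : ℝ, 0 < a ∧ ∀ s : ℕ, ∃ r : ℝ, 0 < r ∧
      r ^ 2 * (1 + (s : ℝ) ^ 2) - 1 =
        c * (√(a ^ 2 + ((1 + r) ^ 2 + (r * s) ^ 2)) * √(a ^ 2 + ((1 - r) ^ 2 + (r * s) ^ 2))) := by
  have ha0 : 0 < (1 + c) / 2 := by linarith
  refine ⟨√((1 + c) / 2), Real.sqrt_pos.mpr ha0, fun s => ?_⟩
  rw [Real.sq_sqrt ha0.le]
  set A : ℝ := (1 + c) / 2 with hA
  let h : ℝ → ℝ := fun r => r ^ 2 * (1 + (s : ℝ) ^ 2) - 1 -
    c * (√(A + ((1 + r) ^ 2 + (r * s) ^ 2)) * √(A + ((1 - r) ^ 2 + (r * s) ^ 2)))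
  have hcont : Continuous h := by
    simp only [h]
    fun_prop
  have h0 : h 0 < 0 := by
    have e : h 0 = -1 - c * (A + 1) := by
      simp only [h]
      have : (A + ((1 + (0 : ℝ)) ^ 2 + ((0 : ℝ) * s) ^ 2)) = A + 1 := by ring
      have e2 : (A + ((1 - (0 : ℝ)) ^ 2 + ((0 : ℝ) * s) ^ 2)) = A + 1 := by ring
      rw [this, e2, Real.mul_self_sqrt (by linarith)]
      ring
    rw [e, hA]
    nlinarith
  set R : ℝ := 1 + (1 + |c| * (A + 1)) / (1 - c) with hR
  have hc3 : 0 < 1 - c := by linarith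
  have hq : 0 ≤ (1 + |c| * (A + 1)) / (1 - c) := by positivity
  have hR1 : 1 ≤ R := by rw [hR]; linarith
  have hRq : (1 - c) * R = (1 - c) + (1 + |c| * (A + 1)) := by
    rw [hR]; field_simp
  have hRR : R ≤ R ^ 2 := by nlinarith
  have hs : (1 : ℝ) ≤ 1 + (s : ℝ) ^ 2 := by nlinarith [sq_nonneg (s : ℝ)]
  have hR2 : R ^ 2 ≤ R ^ 2 * (1 + (s : ℝ) ^ 2) := by nlinarith [sq_nonneg R]
  have hpos : 0 ≤ h R := by
    simp only [h]
    set U := A + ((1 + R) ^ 2 + (R * s) ^ 2) with hU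
    set W := A + ((1 - R) ^ 2 + (R * s) ^ 2) with hW
    have hU0 : 0 ≤ U := by positivity
    have hW0 : 0 ≤ W := by positivity
    have hUW : √U * √W ≤ A + 1 + R ^ 2 * (1 + (s : ℝ) ^ 2) := by
      have h1 := sq_nonneg (√U - √W)
      have h2 := Real.sq_sqrt hU0
      have h3 := Real.sq_sqrt hW0
      have h4 : (U + W) / 2 = A + 1 + R ^ 2 * (1 + (s : ℝ) ^ 2) := by rw [hU, hW]; ring
      rw [← h4]
      nlinarith
    have hUW0 : 0 ≤ √U * √W := by positivity
    rcases le_total 0 c with hc | hc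
    · have e1 : c * (√U * √W) ≤ c * (A + 1 + R ^ 2 * (1 + (s : ℝ) ^ 2)) :=
        mul_le_mul_of_nonneg_left hUW hc
      rw [abs_of_nonneg hc] at hRq
      nlinarith
    · have e1 : c * (√U * √W) ≤ 0 := mul_nonpos_of_nonpos_of_nonneg hc hUW0
      nlinarith
  obtain ⟨r, ⟨hr0, hrR⟩, hr⟩ := intermediate_value_Icc (by linarith : (0 : ℝ) ≤ R)
    hcont.continuousOn (show (0 : ℝ) ∈ Set.Icc (h 0) (h R) from ⟨h0.le, hpos⟩)
  refine ⟨r, lt_of_le_of_ne hr0 ?_, ?_⟩
  · rintro rfl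
    rw [hr] at h0
    exact lt_irrefl _ h0
  · simp only [h] at hr
    linarith

lemma px_inj {a : ℝ} (ha : 0 < a) : Function.Injective (px a) := by
  intro i j h
  have h0 := congrArg (fun v : EuclideanSpace ℝ (Fin 6) => v 0) h
  simp only [px] at h0
  simp at h0
  have hi : (0 : ℝ) < (i : ℝ) + 1 := by positivity
  have hj : (0 : ℝ) < (j : ℝ) + 1 := by positivity
  rw [div_eq_div_iff hi.ne' hj.ne'] at h0
  have := mul_left_cancel₀ ha.ne' h0
  have h2 : (i : ℝ) = j := by linarith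
  exact_mod_cast h2

lemma pz_inj {a : ℝ} (ha : 0 < a) : Function.Injective (pz a) := by
  intro i j h
  have h0 := congrArg (fun v : EuclideanSpace ℝ (Fin 6) => v 2) h
  simp only [pz] at h0
  simp at h0
  have hi : (0 : ℝ) < (i : ℝ) + 1 := by positivity
  have hj : (0 : ℝ) < (j : ℝ) + 1 := by positivity
  rw [div_eq_div_iff hi.ne' hj.ne'] at h0
  have := mul_left_cancel₀ ha.ne' h0
  have h2 : (i : ℝ) = j := by linarith
  exact_mod_cast h2

lemma py_inj {r : ℕ → ℝ} (hr : ∀ s, 0 < r s) : Function.Injective (fun s => py (r s) s) := by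
  intro s t h
  have h4 := congrArg (fun v : EuclideanSpace ℝ (Fin 6) => v 4) h
  have h5 := congrArg (fun v : EuclideanSpace ℝ (Fin 6) => v 5) h
  simp only [py] at h4 h5
  simp at h4 h5
  rw [h4] at h5
  have := mul_left_cancel₀ (hr t).ne' h5
  exact_mod_cast this

lemma px_ne_pz {a : ℝ} (ha : 0 < a) (i j : ℕ) : px a i ≠ pz a j := by
  intro h
  have h0 := congrArg (fun v : EuclideanSpace ℝ (Fin 6) => v 0) h
  simp only [px, pz] at h0
  simp at h0
  have hi : (0 : ℝ) < (i : ℝ) + 1 := by positivity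
  rcases h0 with h0 | h0
  · exact ha.ne' h0
  · exact hi.ne' h0

lemma px_ne_py {a : ℝ} (ha : 0 < a) (r : ℝ) (i s : ℕ) : px a i ≠ py r s := by
  intro h
  have h0 := congrArg (fun v : EuclideanSpace ℝ (Fin 6) => v 0) h
  simp only [px, py] at h0
  simp at h0
  have hi : (0 : ℝ) < (i : ℝ) + 1 := by positivity
  rcases h0 with h0 | h0
  · exact ha.ne' h0
  · exact hi.ne' h0

lemma pz_ne_py {a : ℝ} (ha : 0 < a) (r : ℝ) (i s : ℕ) : pz a i ≠ py r s := by
  intro h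
  have h0 := congrArg (fun v : EuclideanSpace ℝ (Fin 6) => v 2) h
  simp only [pz, py] at h0
  simp at h0
  have hi : (0 : ℝ) < (i : ℝ) + 1 := by positivity
  rcases h0 with h0 | h0
  · exact ha.ne' h0
  · exact hi.ne' h0

/-- The three families: every angle `∠ X Y Z` is `α`. -/
lemma exists_families {α : ℝ} (h0 : 0 < α) (hπ : α < π) :
    ∃ X Y Z : ℕ → EuclideanSpace ℝ (Fin 6), Function.Injective X ∧ Function.Injective Y ∧
      Function.Injective Z ∧ (∀ i j, X i ≠ Y j) ∧ (∀ i j, X i ≠ Z j) ∧ (∀ i j, Z i ≠ Y j) ∧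
      ∀ i s j, EuclideanGeometry.angle (X i) (Y s) (Z j) = α := by
  have hc1 : -1 < cos α := by
    rw [← Real.cos_pi]
    exact Real.cos_lt_cos_of_nonneg_of_le_pi h0.le le_rfl hπ
  have hc2 : cos α < 1 := by
    rw [← Real.cos_zero]
    exact Real.cos_lt_cos_of_nonneg_of_le_pi le_rfl hπ.le h0
  obtain ⟨a, ha, hr⟩ := exists_r hc1 hc2
  choose r hr0 hr using hr
  refine ⟨px a, fun s => py (r s) s, pz a, px_inj ha, py_inj hr0, pz_inj ha,
    fun i j => px_ne_py ha _ _ _, fun i j => px_ne_pz ha _ _, fun i j => pz_ne_py ha _ _ _, ?_⟩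
  intro i s j
  unfold EuclideanGeometry.angle InnerProductGeometry.angle
  rw [vsub_eq_sub, vsub_eq_sub, inner_xz, norm_x, norm_z, hr s]
  have hp1 : 0 < √(a ^ 2 + ((1 + r s) ^ 2 + (r s * s) ^ 2)) :=
    Real.sqrt_pos.mpr (by positivity)
  have hp2 : 0 < √(a ^ 2 + ((1 - r s) ^ 2 + (r s * s) ^ 2)) :=
    Real.sqrt_pos.mpr (by positivity)
  rw [mul_div_assoc, div_self (mul_pos hp1 hp2).ne', mul_one]
  exact Real.arccos_cos h0.le hπ.le

lemma lower {α : ℝ} (h0 : 0 < α) (hπ : α < π) (n : ℕ) : 2 * (n / 3) ^ 3 ≤ B 6 n α := by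
  obtain ⟨X, Y, Z, hX, hY, hZ, hXY, hXZ, hZY, hang⟩ := exists_families h0 hπ
  set m := n / 3 with hm
  classical
  let S0 : Finset (EuclideanSpace ℝ (Fin 6)) :=
    (Finset.range m).image X ∪ ((Finset.range m).image Y ∪ (Finset.range m).image Z)
  have hS0 : S0.card ≤ n := by
    have h1 : S0.card ≤ m + (m + m) := by
      refine (Finset.card_union_le _ _).trans ?_
      refine Nat.add_le_add (Finset.card_image_le.trans (by simp)) ?_
      refine (Finset.card_union_le _ _).trans ?_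
      exact Nat.add_le_add (Finset.card_image_le.trans (by simp))
        (Finset.card_image_le.trans (by simp))
    omega
  obtain ⟨S, hSS, hSc⟩ := Infinite.exists_superset_card_eq S0 n hS0
  have hle : angleCount S α ≤ B 6 n α := le_csSup (bddAbove n α) ⟨S, hSc, rfl⟩
  refine le_trans ?_ hle
  have hXm : ∀ i < m, X i ∈ S := fun i hi => hSS (by
    simp only [S0, Finset.mem_union, Finset.mem_image, Finset.mem_range]
    exact Or.inl ⟨i, hi, rfl⟩)
  have hYm : ∀ i < m, Y i ∈ S := fun i hi => hSS (by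
    simp only [S0, Finset.mem_union, Finset.mem_image, Finset.mem_range]
    exact Or.inr (Or.inl ⟨i, hi, rfl⟩))
  have hZm : ∀ i < m, Z i ∈ S := fun i hi => hSS (by
    simp only [S0, Finset.mem_union, Finset.mem_image, Finset.mem_range]
    exact Or.inr (Or.inr ⟨i, hi, rfl⟩))
  -- the map from `Bool × (range m)^3`
  let F : Bool × (ℕ × ℕ × ℕ) →
      EuclideanSpace ℝ (Fin 6) × EuclideanSpace ℝ (Fin 6) × EuclideanSpace ℝ (Fin 6) := fun t =>
    bif t.1 then (X t.2.1, Y t.2.2.1, Z t.2.2.2) else (Z t.2.2.2, Y t.2.2.1, X t.2.1)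
  let D : Finset (Bool × (ℕ × ℕ × ℕ)) :=
    Finset.univ ×ˢ (Finset.range m ×ˢ (Finset.range m ×ˢ Finset.range m))
  have hDc : D.card = 2 * m ^ 3 := by
    simp only [D, Finset.card_product, Finset.card_range, Finset.card_univ, Fintype.card_bool]
    ring
  have hFinj : Function.Injective F := by
    rintro ⟨b, i, s, j⟩ ⟨b', i', s', j'⟩ h
    cases b <;> cases b' <;> simp only [F, cond_true, cond_false, Prod.mk.injEq] at h
    · obtain ⟨h1, h2, h3⟩ := h
      rw [hZ h1, hY h2, hX h3]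
    · exact absurd h.1.symm (hXZ _ _)
    · exact absurd h.1 (hXZ _ _)
    · obtain ⟨h1, h2, h3⟩ := h
      rw [hX h1, hY h2, hZ h3]
  rw [← hDc, ← Finset.card_image_of_injective D hFinj, ← Set.ncard_coe_finset]
  unfold angleCount
  refine Set.ncard_le_ncard ?_ ((Finset.finite_toSet _).subset (triples_subset S α))
  intro t ht
  rw [Finset.mem_coe, Finset.mem_image] at ht
  obtain ⟨⟨b, i, s, j⟩, hD, rfl⟩ := ht
  simp only [D, Finset.mem_product, Finset.mem_univ, true_and, Finset.mem_range] at hD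
  obtain ⟨hi, hs, hj⟩ := hD
  cases b
  · simp only [F, cond_false, Set.mem_setOf_eq]
    refine ⟨hZm j hj, hYm s hs, hXm i hi, hZY _ _, (hXY _ _).symm, (hXZ _ _).symm, ?_⟩
    rw [EuclideanGeometry.angle_comm]
    exact hang i s j
  · simp only [F, cond_true, Set.mem_setOf_eq]
    exact ⟨hXm i hi, hYm s hs, hZm j hj, hXY _ _, (hZY _ _).symm, hXZ _ _, hang i s j⟩

/-- **Main theorem.** For every angle `0 < α < π` (in particular for every obtuse angle):
`2 ⌊n / 3⌋ ^ 3 ≤ B_6(n, α) ≤ n ^ 3` for all `n`; there is `c > 0` with `B_6(n, α) ≥ c n ^ 3` for all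
`n ≥ 3`; and `B_6(n, α)` has the order of magnitude `n ^ 3`. -/
theorem result (α : ℝ) (h0 : 0 < α) (hπ : α < π) :
    (∀ n : ℕ, 2 * (n / 3) ^ 3 ≤ B 6 n α ∧ B 6 n α ≤ n ^ 3) ∧
    (∀ n : ℕ, 3 ≤ n → (2 / 125 : ℝ) * (n : ℝ) ^ 3 ≤ B 6 n α) ∧
    (fun n : ℕ => (B 6 n α : ℝ)) =Θ[atTop] (fun n : ℕ => (n : ℝ) ^ 3) := by
  have h1 : ∀ n : ℕ, 2 * (n / 3) ^ 3 ≤ B 6 n α ∧ B 6 n α ≤ n ^ 3 :=
    fun n => ⟨lower h0 hπ n, B_le n α⟩
  have h2 : ∀ n : ℕ, 3 ≤ n → (2 / 125 : ℝ) * (n : ℝ) ^ 3 ≤ B 6 n α := by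
    intro n hn
    have h3 : n ≤ 5 * (n / 3) := by omega
    have h4 : (n : ℝ) ≤ 5 * ((n / 3 : ℕ) : ℝ) := by exact_mod_cast h3
    have h5 : (2 : ℝ) * ((n / 3 : ℕ) : ℝ) ^ 3 ≤ B 6 n α := by exact_mod_cast (h1 n).1
    have h6 : (n : ℝ) ^ 3 ≤ (5 * ((n / 3 : ℕ) : ℝ)) ^ 3 := by gcongr
    nlinarith
  refine ⟨h1, h2, ?_, ?_⟩
  · refine IsBigO.of_bound 1 (Eventually.of_forall fun n => ?_)
    rw [Real.norm_eq_abs, Real.norm_eq_abs, abs_of_nonneg (by positivity),
      abs_of_nonneg (by positivity), one_mul]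
    exact_mod_cast (h1 n).2
  · refine IsBigO.of_bound (125 / 2) ((eventually_ge_atTop 3).mono fun n hn => ?_)
    rw [Real.norm_eq_abs, Real.norm_eq_abs, abs_of_nonneg (by positivity),
      abs_of_nonneg (by positivity)]
    have := h2 n hn
    linarith

end Pool.Agent.Results.MP_6251d3_co.CubicOrder
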